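import Pool.Agent.Q201.SC.Stm

/-!
# Tools for recognisable relations (project SC of helper201)
-/

set_option autoImplicit false

namespace Pool.Agent.Q277.SC

open Pool.Agent.Q201.SC

section gen

variable {ι κ U : Type}

theorem Rec.congr {R R' : (ι → List U) → Prop} (h : Rec R) (hh : ∀ u, R' u ↔ R u) : Rec R' := by
  have : R' = R := funext fun u => propext (hh u)
  rw [this]
  exact h

theorem rec_or (tk : TK) {R R' : (ι → List U) → Prop} (h : Rec R) (h' : Rec R') :
    Rec (fun u => R u ∨ R' u) :=
  Rec.congr (tk.not _ _ _ (tk.and _ _ _ _ (tk.not _ _ _ h) (tk.not _ _ _ h')))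
    (fun u => by tauto)

theorem at1 (tk : TK) {R : List U → Prop} (h : Rec1 R) (i : κ) :
    Rec (fun z : κ → List U => R (z i)) :=
  tk.comap Unit κ U (fun _ => i) _ h

theorem at2 (tk : TK) {R : List U → List U → Prop} (h : Rec2 R) (i j : κ) :
    Rec (fun z : κ → List U => R (z i) (z j)) :=
  tk.comap Bool κ U (fun b => cond b j i) _ h

theorem at3 (tk : TK) {R : (Fin 3 → List U) → Prop} (h : Rec R) (f : Fin 3 → κ) :
    Rec (fun z : κ → List U => R (fun a => z (f a))) :=
  tk.comap (Fin 3) κ U f _ h

theorem ex1 (tk : TK) {R : List U → (ι → List U) → Prop}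
    (h : Rec (fun z : Option ι → List U => R (z none) (fun i => z (some i)))) :
    Rec (fun u : ι → List U => ∃ v : List U, R v u) :=
  tk.ex ι U _ h

/-- many quantifiers -/
theorem exN (tk : TK) (n : ℕ) (R : (Fin n ⊕ ι → List U) → Prop) (h : Rec R) :
    Rec (fun u : ι → List U => ∃ v : Fin n → List U, R (Sum.elim v u)) := by
  induction n with
  | zero =>
    have h1 := tk.comap (Fin 0 ⊕ ι) ι U (Sum.elim Fin.elim0 id) R h
    refine Rec.congr h1 fun u => ?_
    have h2 : ∀ v : Fin 0 → List U, Sum.elim v u =
        fun j => u (Sum.elim Fin.elim0 id j) := by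
      intro v
      funext j
      rcases j with j | j
      · exact j.elim0
      · rfl
    constructor
    · rintro ⟨v, hv⟩
      rw [h2] at hv
      exact hv
    · intro hv
      exact ⟨Fin.elim0, by rw [h2]; exact hv⟩
  | succ n ih =>
    let f : Fin (n + 1) ⊕ ι → Option (Fin n ⊕ ι) :=
      Sum.elim (Fin.cases none (fun k => some (Sum.inl k))) (fun i => some (Sum.inr i))
    have h1 := tk.comap (Fin (n + 1) ⊕ ι) (Option (Fin n ⊕ ι)) U f R h
    have h2 := tk.ex (Fin n ⊕ ι) U _ h1
    have h3 := ih _ h2
    refine Rec.congr h3 fun u => ?_
    constructor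
    · rintro ⟨v, hv⟩
      refine ⟨fun k => v k.succ, v 0, ?_⟩
      have : (fun j => ((f j).elim (v 0) (Sum.elim (fun k : Fin n => v k.succ) u) : List U)) =
          Sum.elim v u := by
        funext j
        rcases j with j | j
        · refine Fin.cases ?_ (fun k => ?_) j
          · rfl
          · rfl
        · rfl
      rw [this]
      exact hv
    · rintro ⟨v, a, hv⟩
      refine ⟨Fin.cons a v, ?_⟩
      have : (fun j => ((f j).elim a (Sum.elim v u) : List U)) =
          Sum.elim (Fin.cons a v : Fin (n + 1) → List U) u := by
        funext j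
        rcases j with j | j
        · refine Fin.cases ?_ (fun k => ?_) j
          · rfl
          · simp [f]
        · rfl
      rw [this] at hv
      exact hv

end gen

section codes

variable {α : Type}

theorem hstr_eq {h h' : List ℕ} (H : hstr h = hstr h') : h = h' := by
  have key : ∀ (h : List ℕ), ∃ l, hstr h = l ++ [true] := by
    intro h
    cases h with
    | nil => exact ⟨[], rfl⟩
    | cons c h => exact ⟨hstr h ++ List.replicate c false, rfl⟩
  have rep : ∀ (c c' : ℕ) (l l' : List Bool),
      l ++ [true] ++ List.replicate c false = l' ++ [true] ++ List.replicate c' false →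
      c = c' ∧ l = l' := by
    intro c
    induction c with
    | zero =>
      intro c' l l' H
      cases c' with
      | zero => simpa using H
      | succ c' =>
        exfalso
        rw [List.replicate_succ', ← List.append_assoc] at H
        simp only [List.replicate_zero, List.append_nil] at H
        have := List.append_inj_right' H rfl
        simp at this
    | succ c ih =>
      intro c' l l' H
      cases c' with
      | zero =>
        exfalso
        rw [List.replicate_succ', ← List.append_assoc] at H
        simp only [List.replicate_zero, List.append_nil] at H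
        have := List.append_inj_right' H rfl
        simp at this
      | succ c' =>
        rw [List.replicate_succ', List.replicate_succ', ← List.append_assoc, ← List.append_assoc] at H
        have := List.append_inj_left' H rfl
        obtain ⟨h1, h2⟩ := ih c' l l' this
        exact ⟨by rw [h1], h2⟩
  induction h generalizing h' with
  | nil =>
    cases h' with
    | nil => rfl
    | cons c h' =>
      exfalso
      have h1 : (hstr (c :: h')).length = (hstr h').length + c + 1 := by simp [hstr, add_assoc]
      have h2 : (hstr h').length ≠ 0 := by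
        obtain ⟨l, hl⟩ := key h'
        rw [hl]
        simp
      rw [← H] at h1
      have h3 : (hstr []).length = 1 := rfl
      omega
  | cons c h ih =>
    cases h' with
    | nil =>
      exfalso
      have h1 : (hstr (c :: h)).length = (hstr h).length + c + 1 := by simp [hstr, add_assoc]
      have h2 : (hstr h).length ≠ 0 := by
        obtain ⟨l, hl⟩ := key h
        rw [hl]
        simp
      rw [H] at h1
      have h3 : (hstr []).length = 1 := rfl
      omega
    | cons c' h' =>
      obtain ⟨l, hl⟩ := key h
      obtain ⟨l', hl'⟩ := key h'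
      have h1 : hstr h ++ List.replicate c false = hstr h' ++ List.replicate c' false := by
        have H' : hstr h ++ List.replicate c false ++ [true] =
          hstr h' ++ List.replicate c' false ++ [true] := H
        exact List.append_inj_left' H' rfl
      rw [hl, hl'] at h1
      obtain ⟨h2, h3⟩ := rep c c' l l' h1
      have h4 : h = h' := ih (by rw [hl, hl', h3])
      rw [h2, h4]

theorem bs_inj {s s' : List Bool} (h : (bs s : List (Trk α)) = bs s') : s = s' :=
  List.map_injective_iff.2 Sum.inr_injective h

theorem un_inj {n n' : ℕ} (h : (un n : List (Trk α)) = un n') : n = n' := by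
  have := congrArg List.length h
  simpa [un] using this

theorem mapl {s s' : List (Trk α)} (h : s.map (Sum.inl : Trk α → Lt α) = s'.map Sum.inl) : s = s' :=
  List.map_injective_iff.2 Sum.inl_injective h

/-- the relation between tracks and the code -/
def Z (d τ : Bool) (v : Fin 4 → List (Lt α)) (w : List (Lt α)) : Prop :=
  ∃ t : Fin 4 → List (Trk α), (∀ j, v j = (t j).map Sum.inl) ∧ w = zipT d τ t

theorem recZ (tk : TK) (hz : S_ZIP) [Finite α] (d τ : Bool) {κ' : Type} (f : Fin 4 → κ') (i : κ') :
    Rec (fun z : κ' → List (Lt α) => Z d τ (fun j => z (f j)) (z i)) :=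
  tk.comap (Option (Fin 4)) κ' (Lt α) (fun o => o.elim i f) _ (hz tk α d τ)

theorem Z_intro (κ : ℕ → List α) (d : Bool) (x : Conf) :
    Z d (phase x) (fun j => (tracks κ x j).map Sum.inl) (code κ d x) :=
  ⟨tracks κ x, fun _ => rfl, rfl⟩

theorem Z_elim {κ : ℕ → List α} {d τ : Bool} {x : Conf} {v : Fin 4 → List (Lt α)} {w : List (Lt α)}
    (h : Z d τ v w) (hτ : τ = phase x) (hv : ∀ j, v j = (tracks κ x j).map Sum.inl) :
    w = code κ d x := by
  obtain ⟨t, h1, h2⟩ := h
  have : t = tracks κ x := funext fun j => mapl (by rw [← h1, ← hv])
  rw [h2, this, hτ]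
  rfl

end codes

end Pool.Agent.Q277.SC
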